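import Pool.Agent.H.MP_74778d_co.A

namespace Pool.Agent.Results.MP_74778d_co.Balanced

open Matrix

open Classical in
noncomputable def U {n : ℕ} (X : SimpleGraph (Fin n)) (t : ℝ) : Matrix (Fin n) (Fin n) ℂ :=
  NormedSpace.exp (((t : ℂ) * Complex.I) • X.adjMatrix ℂ)

open Classical in
noncomputable def E {n : ℕ} (X : SimpleGraph (Fin n)) (θ : ℝ) (a : Fin n) : ℝ :=
  (Module.End.eigenspace (toEuclideanLin (X.adjMatrix ℝ)) θ).starProjection
    (EuclideanSpace.single a 1) a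

open Pool.Agent.H.MP_d93d44_co.A Pool.Agent.H.MP_74778d_co.A

noncomputable def cv (ρ θ : ℝ) : Fin 14 → ℝ :=
  ![(θ + 3) * (θ - 3) * (θ - 12), (ρ - 1) * ((θ + 3) * (θ - 3) * (θ - 12)),
    (θ + 6 * (ρ - 1)) * (θ - 3), (6 + (θ - 9) * (ρ - 1)) * (θ - 3),
    (θ + 3) * (θ - 12), (ρ - 1) * ((θ + 3) * (θ - 12)),
    (θ - 3) * (θ - 3), 6 * (θ - 3), (θ - 3) * (θ - 3), 9 * (θ - 3),
    (ρ - 1) * ((θ - 9) * (θ - 3)), (ρ - 1) * (6 * (θ - 3)),
    (ρ - 1) * ((θ - 7) * (θ - 3)), (ρ - 1) * (5 * (θ - 3))]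

noncomputable def ev (ρ k : ℝ) : Fin 210 → ℝ := fun u => cv ρ (3 + k * ρ) (cl u)

theorem eig (ρ k : ℝ) (hρ : ρ ^ 2 = 2) (h : (k + 7) * (k + 3) * (k - 1) * (k - 9) = 0) :
    G.adjMatrix ℝ *ᵥ ev ρ k = (3 + k * ρ) • ev ρ k := by
  funext v
  unfold ev
  rw [lift, Pi.smul_apply, smul_eq_mul]
  generalize cl v = c
  fin_cases c <;> simp [Q, cv, Fin.sum_univ_succ] <;> grind

theorem dec (ρ : ℝ) (hρ : ρ ^ 2 = 2) :
    Pi.single (0 : Fin 210) (1 : ℝ) + (ρ - 1) • Pi.single (1 : Fin 210) (1 : ℝ) =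
      (-ρ / 2048) • ev ρ (-7) + (ρ / 768) • ev ρ (-3) + (-ρ / 1024) • ev ρ 1 +
        (ρ / 6144) • ev ρ 9 := by
  funext u
  simp only [Pi.add_apply, Pi.smul_apply, smul_eq_mul, Pi.single_apply, ← (clf u).1,
    ← (clf u).2, ev]
  generalize cl u = c
  fin_cases c <;> simp [cv] <;> grind

noncomputable def s : ℝ := √2

theorem s2 : s ^ 2 = 2 := Real.sq_sqrt (by norm_num)

theorem s1 : 1 < s := by
  have : 0 ≤ s := Real.sqrt_nonneg 2
  nlinarith [s2]

noncomputable def t : ℝ := Real.pi / (2 * s)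

theorem U_eig (w : Fin 210 → ℝ) (θ : ℝ) (h : G.adjMatrix ℝ *ᵥ w = θ • w) :
    U G t *ᵥ (fun u => (w u : ℂ)) = Complex.exp (t * Complex.I * θ) • fun u => (w u : ℂ) := by
  have e : U G t = NormedSpace.exp (((t : ℂ) * Complex.I) • G.adjMatrix ℂ) := by
    unfold U
    congr
  rw [e]
  apply exp_eig
  rw [smul_mulVec, mul_smul (_ * _)]
  congr 1
  funext v
  have := congrArg Complex.ofReal (congrFun h v)
  simpa using this

noncomputable def z : ℂ := Complex.exp (t * Complex.I * 3)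

theorem ph (m : ℤ) (k : ℝ) (hk : k = 1 + 4 * m) :
    Complex.exp (t * Complex.I * (3 + k * s : ℝ)) = z * Complex.I := by
  have h0 : (s : ℂ) ≠ 0 := by exact_mod_cast (by linarith [s1] : s ≠ 0)
  have : (t : ℂ) * Complex.I * (3 + k * s : ℝ) = t * Complex.I * 3 +
      (Real.pi / 2 * Complex.I + m * (2 * Real.pi * Complex.I)) := by
    rw [hk, t]
    push_cast
    field_simp
    ring
  rw [this, Complex.exp_add, Complex.exp_add, Complex.exp_int_mul_two_pi_mul_I, mul_one,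
    Complex.exp_pi_div_two_mul_I, z]

theorem ph' (m : ℤ) (k : ℝ) (hk : k = 1 + 4 * m) :
    Complex.exp (t * Complex.I * (3 + k * -s : ℝ)) = -(z * Complex.I) := by
  have h0 : (s : ℂ) ≠ 0 := by exact_mod_cast (by linarith [s1] : s ≠ 0)
  have : (t : ℂ) * Complex.I * (3 + k * -s : ℝ) = t * Complex.I * 3 +
      (Real.pi / 2 * Complex.I + ((-m - 1 : ℤ) * (2 * Real.pi * Complex.I)) +
        Real.pi * Complex.I) := by
    rw [hk, t]
    push_cast
    field_simp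
    ring
  rw [this, Complex.exp_add, Complex.exp_add, Complex.exp_add, Complex.exp_int_mul_two_pi_mul_I,
    mul_one, Complex.exp_pi_div_two_mul_I, Complex.exp_pi_mul_I, z]
  ring

theorem U_u (ρ : ℝ) (hρ : ρ ^ 2 = 2) (c : ℂ) (hc : ∀ (m : ℤ) (k : ℝ), k = 1 + 4 * m →
    Complex.exp (t * Complex.I * (3 + k * ρ : ℝ)) = c) (v : Fin 210) :
    U G t v 0 + (ρ - 1 : ℝ) * U G t v 1 =
      c * ((if v = 0 then 1 else 0) + (ρ - 1 : ℝ) * if v = 1 then 1 else 0) := by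
  have h0 := U_eig _ _ (eig ρ (-7) hρ (by norm_num))
  have h1 := U_eig _ _ (eig ρ (-3) hρ (by norm_num))
  have h2 := U_eig _ _ (eig ρ 1 hρ (by norm_num))
  have h3 := U_eig _ _ (eig ρ 9 hρ (by norm_num))
  rw [hc (-2) _ (by norm_num)] at h0
  rw [hc (-1) _ (by norm_num)] at h1
  rw [hc 0 _ (by norm_num)] at h2
  rw [hc 2 _ (by norm_num)] at h3
  have h : (Pi.single (0 : Fin 210) (1 : ℂ) + ((ρ - 1 : ℝ) : ℂ) • Pi.single (1 : Fin 210) (1 : ℂ)
      : Fin 210 → ℂ) = ((-ρ / 2048 : ℝ) : ℂ) • (fun u => (ev ρ (-7) u : ℂ)) +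
      ((ρ / 768 : ℝ) : ℂ) • (fun u => (ev ρ (-3) u : ℂ)) +
      ((-ρ / 1024 : ℝ) : ℂ) • (fun u => (ev ρ 1 u : ℂ)) +
      ((ρ / 6144 : ℝ) : ℂ) • fun u => (ev ρ 9 u : ℂ) := by
    funext u
    have := congrArg Complex.ofReal (congrFun (dec ρ hρ) u)
    simp only [Pi.add_apply, Pi.smul_apply, smul_eq_mul, Pi.single_apply, Complex.ofReal_add,
      Complex.ofReal_mul, apply_ite Complex.ofReal, Complex.ofReal_one, Complex.ofReal_zero]
      at this ⊢
    exact this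
  have k := congrArg (U G t *ᵥ ·) h
  simp only [mulVec_add, mulVec_smul, h0, h1, h2, h3, smul_comm _ c, ← smul_add] at k
  rw [← h] at k
  have := congrFun k v
  simpa [Pi.single_apply] using this

theorem herm : (G.adjMatrix ℝ).IsHermitian := by
  rw [IsHermitian, conjTranspose_eq_transpose_of_trivial]
  exact G.isSymm_adjMatrix

theorem E_eq (θ : ℝ) (a : Fin 210) :
    E G θ a = proj (G.adjMatrix ℝ) θ (WithLp.toLp 2 (Pi.single a 1)) a := by
  refine congrArg (fun x : EuclideanSpace ℝ (Fin 210) => x a) ?_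
  show _ = proj _ θ (EuclideanSpace.single a 1)
  unfold proj
  congr

theorem noncosp : E G (3 + 9 * s) 0 ≠ E G (3 + 9 * s) 1 := by
  have a := s1
  have hm : (-s) ^ 2 = 2 := by rw [neg_sq, s2]
  have p1 := fun v => congrArg (fun w => proj (G.adjMatrix ℝ) (3 + 9 * s) (WithLp.toLp 2 w) v)
    (dec s s2)
  have p2 := fun v => congrArg (fun w => proj (G.adjMatrix ℝ) (3 + 9 * s) (WithLp.toLp 2 w) v)
    (dec (-s) hm)
  simp only [WithLp.toLp_add, WithLp.toLp_smul, map_add, map_smul,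
    proj_ne _ herm _ _ _ (eig s (-7) s2 (by norm_num)) (by linarith : _ < 3 + 9 * s).ne,
    proj_ne _ herm _ _ _ (eig s (-3) s2 (by norm_num)) (by linarith : _ < 3 + 9 * s).ne,
    proj_ne _ herm _ _ _ (eig s 1 s2 (by norm_num)) (by linarith : _ < 3 + 9 * s).ne,
    proj_ne _ herm _ _ _ (eig (-s) (-7) hm (by norm_num)) (by linarith : _ < 3 + 9 * s).ne,
    proj_ne _ herm _ _ _ (eig (-s) (-3) hm (by norm_num)) (by linarith : _ < 3 + 9 * s).ne,
    proj_ne _ herm _ _ _ (eig (-s) 1 hm (by norm_num)) (by linarith : _ < 3 + 9 * s).ne,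
    proj_ne _ herm _ _ _ (eig (-s) 9 hm (by norm_num)) (by linarith : _ < 3 + 9 * s).ne,
    proj_same _ _ _ (eig s 9 s2 (by norm_num)), smul_zero, add_zero, zero_add,
    PiLp.add_apply, PiLp.smul_apply, smul_eq_mul, PiLp.zero_apply] at p1 p2
  have a0 := p1 0
  have a1 := p1 1
  have b0 := p2 0
  have b1 := p2 1
  have w0 : ev s 9 0 = (3 + 9 * s + 3) * (3 + 9 * s - 3) * (3 + 9 * s - 12) := by
    rw [ev, (clf 0).1.2 rfl]
    rfl
  have w1 : ev s 9 1 = (s - 1) * ((3 + 9 * s + 3) * (3 + 9 * s - 3) * (3 + 9 * s - 12)) := by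
    rw [ev, (clf 1).2.2 rfl]
    rfl
  have hD : 0 < (3 + 9 * s + 3) * (3 + 9 * s - 3) * (3 + 9 * s - 12) :=
    mul_pos (mul_pos (by linarith) (by linarith)) (by linarith)
  rw [w0] at a0
  rw [w1] at a1
  generalize (3 + 9 * s + 3) * (3 + 9 * s - 3) * (3 + 9 * s - 12) = D at *
  rw [E_eq, E_eq]
  intro h
  have e : s * D = 0 := by
    linear_combination (-3072) * ((s + 1) * a0 + (s - 1) * b0 - a1 + b1) + 6144 * s * h
  nlinarith

theorem result : ∃ (n : ℕ) (X : SimpleGraph (Fin n)) (a b : Fin n) (τ : ℝ) (α β : ℂ),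
    a ≠ b ∧ (¬ ∀ θ, E X θ a = E X θ b) ∧ 0 < τ ∧ ‖α‖ = 1 / √2 ∧ ‖β‖ = 1 / √2 ∧
    U X τ *ᵥ Pi.single a 1 = α • Pi.single a 1 + β • Pi.single b 1 := by
  have a := s1
  have nz : ‖z * Complex.I / s‖ = 1 / √2 := by
    rw [norm_div, norm_mul, Complex.norm_I, z, mul_right_comm, ← Complex.ofReal_ofNat,
      ← Complex.ofReal_mul, Complex.norm_exp_ofReal_mul_I, Complex.norm_real,
      Real.norm_of_nonneg (by linarith), mul_one, s]
  refine ⟨210, G, 0, 1, t, z * Complex.I / s, z * Complex.I / s, by decide,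
    fun h => noncosp (h _), div_pos Real.pi_pos (by linarith), nz, nz, ?_⟩
  funext v
  have p := U_u s s2 _ ph v
  have q := U_u (-s) (by rw [neg_sq, s2]) _ ph' v
  have c : (s : ℂ) ^ 2 = 2 := by exact_mod_cast s2
  have h0 : (s : ℂ) ≠ 0 := by exact_mod_cast (by linarith : s ≠ 0)
  simp only [mulVec_single_one, col_apply, Pi.add_apply, Pi.smul_apply, smul_eq_mul,
    Pi.single_apply]
  push_cast at p q
  field_simp
  linear_combination ((s : ℂ) + 1) / 2 * p + ((s : ℂ) - 1) / 2 * q +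
    z * Complex.I * (if v = 1 then 1 else 0) * c

end Pool.Agent.Results.MP_74778d_co.Balanced
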